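import Mathlib
import Pool.Agent.H926R3.Br.Free

/-!
# Fixed closures in `ℤᵐ × Fₙ` need not be finitely generated

For all `m ≥ 1` and `n ≥ 2` there is a finitely generated subgroup `H` of `ℤᵐ × Fₙ` whose
auto-fixed closure and endo-fixed closure are both not finitely generated.  For `m = 1`, `n = 2`
one can take `H = ⟨t, b, a b a⁻¹, a² b a⁻²⟩`; its closures are both `⟨t⟩ × ⟨⟨b⟩⟩`.
-/

namespace Pool.Agent.Results.MP_d3e052_al.NotFG

section Defs

variable {G : Type*} [Group G]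

/-- The subgroup of elements fixed by every endomorphism in `S`. -/
def Fix (S : Set (G →* G)) : Subgroup G where
  carrier := {g | ∀ φ ∈ S, φ g = g}
  mul_mem' := fun ha hb φ hφ => by rw [map_mul, ha φ hφ, hb φ hφ]
  one_mem' := fun φ _ => map_one φ
  inv_mem' := fun ha φ hφ => by rw [map_inv, ha φ hφ]

/-- The endo-stabilizer of `H`: the endomorphisms `φ` of `G` with `H ≤ Fix φ`. -/
def eStab (H : Subgroup G) : Set (G →* G) := {φ | ∀ h ∈ H, φ h = h}

/-- The auto-stabilizer of `H`: the automorphisms `φ` of `G` with `H ≤ Fix φ`. -/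
def aStab (H : Subgroup G) : Set (G →* G) := {φ | Function.Bijective φ ∧ ∀ h ∈ H, φ h = h}

/-- The auto-fixed closure of `H`. -/
def aCl (H : Subgroup G) : Subgroup G := Fix (aStab H)

/-- The endo-fixed closure of `H`. -/
def eCl (H : Subgroup G) : Subgroup G := Fix (eStab H)

end Defs

/-- The group `ℤᵐ × Fₙ`. -/
abbrev ZF (m n : ℕ) : Type := Multiplicative (Fin m → ℤ) × FreeGroup (Fin n)

section Free

variable {k : ℕ}

variable (k) in
/-- The letter `a`. -/
def LA : FreeGroup (Fin (k + 2)) := FreeGroup.of 0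

variable (k) in
/-- The letter `b`. -/
def LB : FreeGroup (Fin (k + 2)) := FreeGroup.of 1

/-- The exponent sum of `a`. -/
def ea : FreeGroup (Fin (k + 2)) →* Multiplicative ℤ :=
  FreeGroup.lift fun i => if i = 0 then Multiplicative.ofAdd 1 else 1

/-- The exponent sum of `b`. -/
def eb : FreeGroup (Fin (k + 2)) →* Multiplicative ℤ :=
  FreeGroup.lift fun i => if i = 1 then Multiplicative.ofAdd 1 else 1

lemma ab_ne : ((LA k) * (LB k) : FreeGroup (Fin (k + 2))) ≠ (LB k) * (LA k) := by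
  intro h
  let f : FreeGroup (Fin (k + 2)) →* Equiv.Perm (Fin 3) :=
    FreeGroup.lift fun i => if i = 0 then Equiv.swap 0 1 else Equiv.swap 1 2
  have h1 := congrArg f h
  simp only [LA, LB, map_mul, f, FreeGroup.lift_apply_of, if_true, one_ne_zero, if_false] at h1
  have h2 := congrArg (fun σ : Equiv.Perm (Fin 3) => σ 0) h1
  revert h2
  decide

lemma mem_zpowers_of_commute {g : FreeGroup (Fin (k + 2))} {j : ℤ} (hj : j ≠ 0)
    (h : g * (LB k) ^ j = (LB k) ^ j * g) : ∃ i : ℤ, (LB k) ^ i = g := by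
  have h' : g * (LB k) ^ j.natAbs = (LB k) ^ j.natAbs * g := by
    rcases Int.natAbs_eq j with hj' | hj'
    · rw [hj', zpow_natCast] at h
      exact h
    · rw [hj', zpow_neg, zpow_natCast] at h
      have h2 : Commute g ((LB k) ^ j.natAbs)⁻¹ := h
      exact (Commute.inv_right_iff.1 h2)
  exact Pool.Agent.H926R3.Br.FP.free_centralizer (1 : Fin (k + 2)) j.natAbs
    (Nat.one_le_iff_ne_zero.2 (Int.natAbs_ne_zero.2 hj)) g h'

/-- The key fact in the free group. -/
lemma eq_la {w : FreeGroup (Fin (k + 2))} (h1 : w * (LB k) * w⁻¹ = (LA k) * (LB k) * (LA k)⁻¹)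
    (h2 : w * w * (LB k) * (w * w)⁻¹ = (LA k) * (LA k) * (LB k) * ((LA k) * (LA k))⁻¹) : w = (LA k) := by
  have c1 : ((LA k)⁻¹ * w) * (LB k) ^ (1 : ℤ) = (LB k) ^ (1 : ℤ) * ((LA k)⁻¹ * w) := by
    rw [zpow_one]
    calc (LA k)⁻¹ * w * (LB k) = (LA k)⁻¹ * (w * (LB k) * w⁻¹) * w := by group
      _ = (LA k)⁻¹ * ((LA k) * (LB k) * (LA k)⁻¹) * w := by rw [h1]
      _ = (LB k) * ((LA k)⁻¹ * w) := by group
  obtain ⟨i, hi⟩ := mem_zpowers_of_commute one_ne_zero c1
  have hw : w = (LA k) * (LB k) ^ i := by rw [hi]; group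
  have hi0 : i = 0 := by
    by_contra hne
    have c2 : (((LA k) * (LA k))⁻¹ * (w * w)) * (LB k) = (LB k) * (((LA k) * (LA k))⁻¹ * (w * w)) := by
      calc ((LA k) * (LA k))⁻¹ * (w * w) * (LB k) = ((LA k) * (LA k))⁻¹ * (w * w * (LB k) * (w * w)⁻¹) * (w * w) := by group
        _ = ((LA k) * (LA k))⁻¹ * ((LA k) * (LA k) * (LB k) * ((LA k) * (LA k))⁻¹) * (w * w) := by rw [h2]
        _ = (LB k) * (((LA k) * (LA k))⁻¹ * (w * w)) := by group
    rw [hw] at c2
    have c3 : ((LA k) * (LB k) * (LA k)⁻¹) * (LB k) ^ i = (LB k) ^ i * ((LA k) * (LB k) * (LA k)⁻¹) := by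
      have e : ((LA k) * (LA k))⁻¹ * ((LA k) * (LB k) ^ i * ((LA k) * (LB k) ^ i)) = (LA k)⁻¹ * (LB k) ^ i * (LA k) * (LB k) ^ i := by group
      rw [e] at c2
      have c4 : (LA k)⁻¹ * (LB k) ^ i * (LA k) * (LB k) = (LB k) * ((LA k)⁻¹ * (LB k) ^ i * (LA k)) := by
        have : (LA k)⁻¹ * (LB k) ^ i * (LA k) * (LB k) ^ i * (LB k) = (LA k)⁻¹ * (LB k) ^ i * (LA k) * (LB k) * (LB k) ^ i := by
          rw [mul_assoc _ ((LB k) ^ i) (LB k), mul_assoc _ (LB k) ((LB k) ^ i), (Commute.refl (LB k)).zpow_left i |>.eq]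
        rw [this] at c2
        have c2' : ((LA k)⁻¹ * (LB k) ^ i * (LA k) * (LB k)) * (LB k) ^ i = ((LB k) * ((LA k)⁻¹ * (LB k) ^ i * (LA k))) * (LB k) ^ i := by
          rw [c2]; group
        exact mul_right_cancel c2'
      calc ((LA k) * (LB k) * (LA k)⁻¹) * (LB k) ^ i = (LA k) * ((LB k) * ((LA k)⁻¹ * (LB k) ^ i * (LA k))) * (LA k)⁻¹ := by group
        _ = (LA k) * ((LA k)⁻¹ * (LB k) ^ i * (LA k) * (LB k)) * (LA k)⁻¹ := by rw [c4]
        _ = (LB k) ^ i * ((LA k) * (LB k) * (LA k)⁻¹) := by group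
    obtain ⟨j, hj⟩ := mem_zpowers_of_commute hne c3
    have hj1 : j = 1 := by
      have := congrArg eb hj
      simp only [eb, LA, LB, map_zpow, map_mul, map_inv, FreeGroup.lift_apply_of, if_true] at this
      rw [if_neg (by simp)] at this
      have := congrArg Multiplicative.toAdd this
      simpa using this
    rw [hj1, zpow_one] at hj
    apply ab_ne (k := k)
    calc (LA k) * (LB k) = ((LA k) * (LB k) * (LA k)⁻¹) * (LA k) := by group
      _ = (LB k) * (LA k) := by rw [← hj]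
  rw [hw, hi0, zpow_zero, mul_one]

/-- The affine action on `ℚ`: `a` acts as doubling, `b` as translation by one. -/
def aff : FreeGroup (Fin (k + 2)) →* Equiv.Perm ℚ :=
  FreeGroup.lift fun i => if i = 0 then Equiv.mulLeft₀ 2 two_ne_zero else
    if i = 1 then Equiv.addLeft 1 else 1

lemma aff_apply (g : FreeGroup (Fin (k + 2))) :
    ∃ q : ℚ, ∀ z : ℚ, aff g z = (2 : ℚ) ^ (Multiplicative.toAdd (ea g)) * z + q := by
  induction g using FreeGroup.induction_on with
  | C1 => exact ⟨0, fun z => by simp⟩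
  | of i =>
    by_cases h0 : i = 0
    · exact ⟨0, fun z => by simp [aff, ea, h0]⟩
    · by_cases h1 : i = 1
      · exact ⟨1, fun z => by simp [aff, ea, h1, add_comm]⟩
      · exact ⟨0, fun z => by simp [aff, ea, h0, h1]⟩
  | inv_of i ih =>
    by_cases h0 : i = 0
    · exact ⟨0, fun z => by simp [aff, ea, h0]⟩
    · by_cases h1 : i = 1
      · exact ⟨-1, fun z => by simp [aff, ea, h1, add_comm]⟩
      · exact ⟨0, fun z => by simp [aff, ea, h0, h1]⟩
  | mul x y hx hy =>
    obtain ⟨p, hp⟩ := hx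
    obtain ⟨q, hq⟩ := hy
    refine ⟨2 ^ (Multiplicative.toAdd (ea x)) * q + p, fun z => ?_⟩
    rw [map_mul, Equiv.Perm.mul_apply, hq, hp, map_mul, toAdd_mul, zpow_add₀ two_ne_zero]
    ring

lemma ker_not_fg : ¬ (ea (k := k)).ker.FG := by
  rintro ⟨S, hS⟩
  -- common denominator of the translations given by the generators
  have hd : ∃ D : ℕ, D ≠ 0 ∧ ∀ g ∈ S, ∃ c : ℤ, D * aff g 0 = c := by
    classical
    refine ⟨∏ g ∈ S, (aff g 0).den, Finset.prod_ne_zero_iff.2 fun g _ => (aff g 0).den_ne_zero, ?_⟩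
    intro g hg
    obtain ⟨e, he⟩ := Finset.dvd_prod_of_mem (fun g => (aff g 0).den) hg
    refine ⟨e * (aff g 0).num, ?_⟩
    rw [he]
    push_cast
    have h2 : ((aff g 0).den : ℚ) ≠ 0 := Nat.cast_ne_zero.2 (aff g 0).den_ne_zero
    have h3 : ((aff g 0).den : ℚ) * aff g 0 = (aff g 0).num := Rat.den_mul_eq_num _
    linear_combination (e : ℚ) * h3
  obtain ⟨D, hD, hgen⟩ := hd
  -- all elements of the kernel have this denominator
  have hall : ∀ g ∈ (ea (k := k)).ker, ∃ c : ℤ, D * aff g 0 = c := by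
    intro g hg
    have hg' := hg
    rw [← hS] at hg'
    have : ea g = 1 ∧ ∃ c : ℤ, D * aff g 0 = c := by
      induction hg' using Subgroup.closure_induction with
      | mem x hx =>
        refine ⟨?_, hgen x hx⟩
        have : x ∈ (ea (k := k)).ker := by rw [← hS]; exact Subgroup.subset_closure hx
        exact this
      | one => exact ⟨map_one _, 0, by simp⟩
      | mul x y hx hy ihx ihy =>
        have kx : x ∈ (ea (k := k)).ker := by rw [← hS]; exact hx
        have ky : y ∈ (ea (k := k)).ker := by rw [← hS]; exact hy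
        obtain ⟨ex, cx, hcx⟩ := ihx kx
        obtain ⟨ey, cy, hcy⟩ := ihy ky
        refine ⟨by rw [map_mul, ex, ey, one_mul], cx + cy, ?_⟩
        obtain ⟨p, hp⟩ := aff_apply x
        obtain ⟨q, hq⟩ := aff_apply y
        rw [ex] at hp
        rw [ey] at hq
        simp only [toAdd_one, zpow_zero, one_mul] at hp hq
        rw [map_mul, Equiv.Perm.mul_apply, hp, hq]
        rw [hp] at hcx
        rw [hq] at hcy
        push_cast
        linear_combination hcx + hcy
      | inv x hx ihx =>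
        have kx : x ∈ (ea (k := k)).ker := by rw [← hS]; exact hx
        obtain ⟨ex, cx, hcx⟩ := ihx kx
        refine ⟨by rw [map_inv, ex, inv_one], -cx, ?_⟩
        obtain ⟨p, hp⟩ := aff_apply x
        rw [ex] at hp
        simp only [toAdd_one, zpow_zero, one_mul] at hp
        have h0 : aff x⁻¹ 0 = -p := by
          rw [map_inv, Equiv.Perm.inv_eq_iff_eq, hp]
          ring
        rw [h0]
        rw [hp] at hcx
        push_cast
        linear_combination -hcx
    exact this.2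
  -- contradiction from `a⁻ⁿ b aⁿ`
  have hpow : ∀ n : ℕ, ∀ z : ℚ, aff ((LA k) ^ n) z = 2 ^ n * z := by
    intro n
    induction n with
    | zero => intro z; simp
    | succ n ih =>
      intro z
      rw [pow_succ, map_mul, Equiv.Perm.mul_apply, ih]
      simp [aff, LA]
      ring
  obtain ⟨c, hc⟩ := hall (((LA k) ^ D)⁻¹ * (LB k) * (LA k) ^ D) (by
    rw [MonoidHom.mem_ker]
    simp [ea, LA, LB])
  have hval : aff (((LA k) ^ D)⁻¹ * (LB k) * (LA k) ^ D) 0 = 1 / 2 ^ D := by
    rw [map_mul, Equiv.Perm.mul_apply, hpow, mul_zero, map_mul, Equiv.Perm.mul_apply]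
    have hb : aff (LB k) 0 = 1 := by simp [aff, LB]
    rw [hb, map_inv, Equiv.Perm.inv_eq_iff_eq, hpow]
    field_simp
  rw [hval] at hc
  have h1 : (D : ℚ) = c * 2 ^ D := by
    field_simp at hc
    linear_combination hc
  have h2 : (D : ℤ) = c * 2 ^ D := by exact_mod_cast h1
  have hDpos : 0 < D := Nat.pos_of_ne_zero hD
  have hlt : D < 2 ^ D := Nat.lt_two_pow_self
  have hcpos : 0 < c := by
    by_contra hcn
    push Not at hcn
    have : c * 2 ^ D ≤ 0 := mul_nonpos_of_nonpos_of_nonneg hcn (by positivity)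
    omega
  have : (2 : ℤ) ^ D ≤ c * 2 ^ D := le_mul_of_one_le_left (by positivity) hcpos
  have : ((2 ^ D : ℕ) : ℤ) ≤ D := by
    push_cast
    omega
  omega

/-- The finite set of generators of the free part of `H`. -/
def freeGens (k : ℕ) : Set (FreeGroup (Fin (k + 2))) :=
  (FreeGroup.of '' {i | i ≠ 0}) ∪ {LA k * LB k * (LA k)⁻¹, LA k * LA k * LB k * (LA k * LA k)⁻¹}

lemma finite_freeGens : (freeGens k).Finite :=
  ((Set.toFinite _).image _).union (Set.toFinite _)

/-- The subgroup `H`. -/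
def HH (l k : ℕ) : Subgroup (ZF (l + 1) (k + 2)) :=
  (⊤ : Subgroup (Multiplicative (Fin (l + 1) → ℤ))).prod (Subgroup.closure (freeGens k))

lemma HH_fg (l k : ℕ) : (HH l k).FG := by
  refine Subgroup.FG.prod (Group.fg_def.1 inferInstance) ?_
  rw [Subgroup.fg_iff]
  exact ⟨_, rfl, finite_freeGens⟩

lemma mem_HH_right {l : ℕ} {g : FreeGroup (Fin (k + 2))} (hg : g ∈ freeGens k) :
    ((1 : Multiplicative (Fin (l + 1) → ℤ)), g) ∈ HH l k :=
  ⟨Subgroup.mem_top _, Subgroup.subset_closure hg⟩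

lemma mem_HH_left {l : ℕ} (v : Multiplicative (Fin (l + 1) → ℤ)) :
    (v, (1 : FreeGroup (Fin (k + 2)))) ∈ HH l k :=
  ⟨Subgroup.mem_top _, one_mem _⟩

/-- The closures of `H`. -/
def KK (l k : ℕ) : Subgroup (ZF (l + 1) (k + 2)) :=
  ((ea (k := k)).comp (MonoidHom.snd _ _)).ker

lemma mem_KK {l : ℕ} {g : ZF (l + 1) (k + 2)} : g ∈ KK l k ↔ ea g.2 = 1 := Iff.rfl

lemma KK_not_fg (l k : ℕ) : ¬ (KK l k).FG := by
  intro h
  apply ker_not_fg (k := k)
  have h1 : (ea (k := k)).ker = (KK l k).map (MonoidHom.snd _ _) := by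
    ext g
    constructor
    · intro hg
      exact ⟨(1, g), hg, rfl⟩
    · rintro ⟨g, hg, rfl⟩
      exact hg
  rw [h1]
  obtain ⟨S, hS⟩ := h
  classical
  refine ⟨S.image (MonoidHom.snd _ _), ?_⟩
  rw [← hS, MonoidHom.map_closure, Finset.coe_image]

/-- Endomorphisms fixing `H` fix `K`. -/
lemma KK_le {l : ℕ} : KK l k ≤ eCl (HH l k) := by
  intro g hg φ hφ
  have hleft : ∀ v, φ (v, 1) = (v, 1) := fun v => hφ _ (mem_HH_left v)
  have hright : ∀ w ∈ freeGens k, φ (1, w) = (1, w) := fun w hw => hφ _ (mem_HH_right hw)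
  have hlet : ∀ i : Fin (k + 2), i ≠ 0 → φ (1, FreeGroup.of i) = (1, FreeGroup.of i) :=
    fun i hi => hright _ (Or.inl ⟨i, hi, rfl⟩)
  have hb : φ (1, LB k) = (1, LB k) := hlet 1 (by simp)
  -- the second component of the image of `a`
  obtain ⟨s, w, hsw⟩ : ∃ s w, φ (1, LA k) = (s, w) := ⟨_, _, rfl⟩
  have hw : w = LA k := by
    apply eq_la
    · have h1 := hright (LA k * LB k * (LA k)⁻¹) (Or.inr (Or.inl rfl))
      have h2 : ((1 : Multiplicative (Fin (l + 1) → ℤ)), LA k * LB k * (LA k)⁻¹) =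
          (1, LA k) * (1, LB k) * (1, LA k)⁻¹ := by
        ext1 <;> simp
      rw [h2, map_mul, map_mul, map_inv, hsw, hb, ← h2] at h1
      have := congrArg Prod.snd h1
      simpa using this
    · have h1 := hright (LA k * LA k * LB k * (LA k * LA k)⁻¹) (Or.inr (Or.inr rfl))
      have h2 : ((1 : Multiplicative (Fin (l + 1) → ℤ)), LA k * LA k * LB k * (LA k * LA k)⁻¹) =
          (1, LA k) * (1, LA k) * (1, LB k) * ((1, LA k) * (1, LA k))⁻¹ := by
        ext1 <;> simp
      rw [h2, map_mul, map_mul, map_inv, map_mul, hsw, hb, ← h2] at h1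
      have := congrArg Prod.snd h1
      simpa using this
  subst hw
  -- the values of `φ` on the free part
  have hval : ∀ x : FreeGroup (Fin (k + 2)),
      φ (1, x) = (s ^ (Multiplicative.toAdd (ea x)), x) := by
    intro x
    have h3 : φ.comp (MonoidHom.inr _ _) =
        MonoidHom.prod ((zpowersHom _ s).comp (ea (k := k))) (MonoidHom.id _) := by
      refine FreeGroup.ext_hom _ _ fun i => ?_
      by_cases hi : i = 0
      · subst hi
        simpa [LA, ea] using hsw
      · simpa [ea, hi] using hlet i hi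
    have h4 := DFunLike.congr_fun h3 x
    simpa using h4
  obtain ⟨v, x⟩ := g
  have hx : ea x = 1 := hg
  have h5 : ((v, x) : ZF (l + 1) (k + 2)) = (v, 1) * (1, x) := by simp
  rw [h5, map_mul, hleft, hval, hx]
  simp

/-- The endomorphism `a ↦ t^c a`. -/
def shear (l k : ℕ) (c : ℤ) : ZF (l + 1) (k + 2) →* ZF (l + 1) (k + 2) :=
  MonoidHom.prod (MonoidHom.fst _ _ *
    ((zpowersHom _ (Multiplicative.ofAdd (Pi.single 0 c))).comp
      ((ea (k := k)).comp (MonoidHom.snd _ _)))) (MonoidHom.snd _ _)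

lemma shear_apply (l k : ℕ) (c : ℤ) (g : ZF (l + 1) (k + 2)) :
    shear l k c g =
      (g.1 * (Multiplicative.ofAdd (Pi.single 0 c)) ^ (Multiplicative.toAdd (ea g.2)), g.2) := by
  simp [shear]

lemma shear_shear (l k : ℕ) (c d : ℤ) (h : c + d = 0) (g : ZF (l + 1) (k + 2)) :
    shear l k c (shear l k d g) = g := by
  rw [shear_apply, shear_apply]
  ext1
  · simp only
    rw [mul_assoc, ← mul_zpow, ← ofAdd_add, ← Pi.single_add, add_comm d c, h, Pi.single_zero,
      ofAdd_zero, one_zpow, mul_one]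
  · rfl

lemma shear_mem (l k : ℕ) : shear l k 1 ∈ aStab (HH l k) := by
  refine ⟨⟨?_, ?_⟩, ?_⟩
  · intro g h hgh
    have := congrArg (shear l k (-1)) hgh
    rwa [shear_shear l k (-1) 1 (by norm_num), shear_shear l k (-1) 1 (by norm_num)] at this
  · intro g
    exact ⟨shear l k (-1) g, shear_shear l k 1 (-1) (by norm_num) g⟩
  · rintro g ⟨-, hg⟩
    have h1 : Subgroup.closure (freeGens k) ≤ (ea (k := k)).ker := by
      rw [Subgroup.closure_le]
      rintro x (⟨i, hi, rfl⟩ | rfl | rfl)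
      · have hi' : i ≠ 0 := hi
        simp [ea, MonoidHom.mem_ker, hi']
      · simp [ea, MonoidHom.mem_ker, LA, LB]
      · simp [ea, MonoidHom.mem_ker, LA, LB]
    have h2 : ea g.2 = 1 := h1 hg
    rw [shear_apply, h2]
    simp

lemma le_KK {l : ℕ} : aCl (HH l k) ≤ KK l k := by
  intro g hg
  have h1 := hg _ (shear_mem l k)
  rw [shear_apply] at h1
  have h2 := congrArg Prod.fst h1
  simp only [mul_eq_left] at h2
  rw [← ofAdd_zsmul, ofAdd_eq_one] at h2
  have h3 := congrFun h2 0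
  simp at h3
  rw [mem_KK]
  exact h3

lemma eCl_le {G : Type*} [Group G] (H : Subgroup G) : eCl H ≤ aCl H :=
  fun _ hg φ hφ => hg φ hφ.2

lemma aCl_eq (l k : ℕ) : aCl (HH l k) = KK l k :=
  le_antisymm le_KK (KK_le.trans (eCl_le _))

lemma eCl_eq (l k : ℕ) : eCl (HH l k) = KK l k :=
  le_antisymm ((eCl_le _).trans le_KK) KK_le

end Free

/-- For all `m ≥ 1` and `n ≥ 2`, some finitely generated subgroup of `ℤᵐ × Fₙ` has auto-fixed
closure and endo-fixed closure that are both not finitely generated. -/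
theorem result (m n : ℕ) (hm : 1 ≤ m) (hn : 2 ≤ n) :
    ∃ H : Subgroup (ZF m n), H.FG ∧ ¬ (aCl H).FG ∧ ¬ (eCl H).FG := by
  obtain ⟨l, rfl⟩ := Nat.exists_eq_add_of_le' hm
  obtain ⟨k, rfl⟩ := Nat.exists_eq_add_of_le' hn
  refine ⟨HH l k, HH_fg l k, ?_, ?_⟩
  · rw [aCl_eq]
    exact KK_not_fg l k
  · rw [eCl_eq]
    exact KK_not_fg l k

end Pool.Agent.Results.MP_d3e052_al.NotFG
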